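import Pool.Agent.helper20.SOL.Spec

/-!
# Project sol, row DL0
-/

set_option autoImplicit false

namespace Pool.Agent.SOL

open Pool.Agent.helper54.SOG Finset

open scoped BigOperators

theorem DL0_abs {n t : ℕ} {x : Vec n} (hx : x ∈ TD n t 0) (i : Fin n) : |x i| = 0 ∨ |x i| = 2 := by
  have h1 := hx.1 i
  have h2 : 0 ≤ |x i| := abs_nonneg _
  have h3 : |x i| ≠ 1 := by
    intro h
    have h4 : cnt x 1 = 0 := hx.2.2
    unfold cnt at h4
    rw [Finset.card_eq_zero, Finset.filter_eq_empty_iff] at h4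
    exact h4 (Finset.mem_univ i) h
  omega

theorem DL0_sg {z : ℤ} (h : |z| = 2) : sg z * 2 = z := by
  unfold sg
  rcases (abs_eq (by norm_num : (0 : ℤ) ≤ 2)).1 h with h1 | h1
  · rw [h1]
    norm_num
  · rw [h1]
    norm_num

theorem DL0_ne {n t : ℕ} {x : Vec n} (hx : x ∈ TD n t 0) {i : Fin n} (h : x i ≠ 0) : |x i| = 2 := by
  rcases DL0_abs hx i with h1 | h1
  · exact absurd (abs_eq_zero.1 h1) h
  · exact h1

theorem DL0 (hCNT : CNT_stmt) (hPAT : PAT_stmt) (hLX5 : LX5_stmt) : DL0_stmt := by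
  intro n r hr hn M _ _ f hf
  have hz : ∀ x ∈ TD n (2 * r) 0, cnt x 0 = r + 0 + (n - 3 * r) := by
    intro x hx
    have h1 := hCNT.1 n x hx.1
    rw [hx.2.1, hx.2.2] at h1
    omega
  refine hLX5 n (2 * r) 0 M f (fun _ => 2) hf ?_ ?_ ?_ ?_
  · intro x hx i j hij hi hj
    have h2i := DL0_ne hx hi
    have h2j := DL0_ne hx hj
    obtain ⟨y, hy, hxy, hyi, hyj⟩ := hPAT.2.1 n x r r 0 0 0 0 0 r 0 (n - 3 * r) hx.1
      (by rw [hx.2.1]; omega) (by rw [hx.2.2]) (hz x hx) i j 0 2 hij (by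
        intro p q
        rw [h2i, h2j]
        unfold pat
        split_ifs <;> omega)
    refine ⟨y, ?_, ?_, Or.inl ⟨?_, ?_⟩⟩
    · rw [show 2 * r = r + 0 + r by omega]
      exact hy
    · rw [show 2 * r = r + 0 + r by omega]
      exact hxy
    · rw [hyi, mul_zero]
    · rw [Pi.sub_apply, hyj, DL0_sg h2j, sub_self]
  · intro x hx i a b hi ha hb hxa hxb
    have h2i := DL0_ne hx hi
    have hb0 : |x b| = 0 := (DL0_abs hx b).resolve_right hxb
    have hab : a ≠ b := by
      rintro rfl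
      exact hxb hxa
    have hxa' : |x a| = 2 := hxa
    obtain ⟨y, hy, hxy, hyi, hya, hyb⟩ := hPAT.1 n x r r 0 0 0 0 0 r 0 (n - 3 * r) hx.1
      (by rw [hx.2.1]; omega) (by rw [hx.2.2]) (hz x hx) i a b 2 0 0 ha.symm hb.symm hab (by
        intro p q
        rw [h2i, hxa', hb0]
        unfold pat
        split_ifs <;> omega)
    refine ⟨y, ?_, ?_, ?_, ?_⟩
    · rw [show 2 * r = r + 0 + r by omega]
      exact hy
    · rw [show 2 * r = r + 0 + r by omega]
      exact hxy
    · rw [Pi.sub_apply, hyi, DL0_sg h2i, sub_self]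
    · rw [hya, hyb, mul_zero, mul_zero]
  · intro x hx i a b _ _ _ hxa hxb hab
    have h1 := (DL0_abs hx a).resolve_right hxa
    have h2 := (DL0_abs hx b).resolve_right hxb
    exact absurd (h1.trans h2.symm) hab
  · intro i _ h
    obtain ⟨x, hx, hxi⟩ := h
    exfalso
    rcases DL0_abs hx i with h1 | h1
    · rw [hxi] at h1
      norm_num at h1
    · rw [hxi] at h1
      norm_num at h1

end Pool.Agent.SOL
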